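import Pool.Graph.R_seed8.H315R3.White.Link

/-! White's conjecture: closure under duality, direct sums and comaps. -/

set_option autoImplicit false

namespace Pool.Agent.KS6_88.WH

open Set Matroid

theorem rlift {α β : Type} {r : α → α → Prop} {p : β → β → Prop} (f : α → β)
    (h : ∀ a b, r a b → p (f a) (f b)) {a b : α} (hab : Relation.ReflTransGen r a b) :
    Relation.ReflTransGen p (f a) (f b) := Relation.ReflTransGen.lift f h _ _ hab

/-- a symmetric exchange between two members of a tuple of bases -/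
def Step {α : Type} (M : Matroid α) {n : ℕ} (T T' : Fin n → Set α) : Prop :=
  ∃ (i j : Fin n) (a b : α), i ≠ j ∧ a ∈ T i ∧ a ∉ T j ∧ b ∈ T j ∧ b ∉ T i ∧
    T' i = insert b (T i \ {a}) ∧ T' j = insert a (T j \ {b}) ∧
    (∀ k, k ≠ i → k ≠ j → T' k = T k) ∧ M.IsBase (T' i) ∧ M.IsBase (T' j)

def White {α : Type} (M : Matroid α) : Prop :=
  ∀ (n : ℕ) (B B' : Fin n → Set α), (∀ i, M.IsBase (B i)) → (∀ i, M.IsBase (B' i)) →
    (∀ x, {i | x ∈ B i}.ncard = {i | x ∈ B' i}.ncard) → Relation.ReflTransGen (Step M) B B'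

theorem step_count {α : Type} {M : Matroid α} {n : ℕ} {T T' : Fin n → Set α} (h : Step M T T')
    (x : α) : {k | x ∈ T' k}.ncard = {k | x ∈ T k}.ncard := by
  obtain ⟨i, j, a, b, hij, h1, h2, h3, h4, h5, h6, h7, -, -⟩ := h
  have hab : a ≠ b := by rintro rfl; exact h4 h1
  have key : ∀ (p q : Fin n), p ≠ q → x ∈ T p → x ∉ T q → x ∉ T' p → x ∈ T' q →
      (∀ k, k ≠ p → k ≠ q → T' k = T k) → {k | x ∈ T' k}.ncard = {k | x ∈ T k}.ncard := by
    intro p q hpq k1 k2 k3 k4 k5
    have e : {k | x ∈ T' k} = insert q ({k | x ∈ T k} \ {p}) := by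
      ext k
      simp only [mem_ofPred_eq, mem_insert_iff, mem_sdiff, mem_singleton_iff]
      by_cases hkp : k = p
      · subst hkp
        constructor
        · intro h; exact absurd h k3
        · rintro (h | ⟨-, h⟩)
          · exact absurd h hpq
          · exact absurd rfl h
      · by_cases hkq : k = q
        · subst hkq
          simp [k4]
        · rw [k5 k hkp hkq]
          simp [hkp, hkq]
    rw [e, Set.ncard_insert_of_notMem (by
      rintro ⟨h, -⟩; exact k2 h)]
    exact Set.ncard_sdiff_singleton_add_one (show p ∈ {k | x ∈ T k} from k1)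
  by_cases hxa : x = a
  · subst hxa
    exact key i j hij h1 h2 (by rw [h5]; simp [hab]) (by rw [h6]; simp) h7
  · by_cases hxb : x = b
    · subst hxb
      exact key j i hij.symm h3 h4 (by rw [h6]; simp [Ne.symm hab]) (by rw [h5]; simp)
        (fun k hk1 hk2 => h7 k hk2 hk1)
    · congr 1
      ext k
      simp only [mem_ofPred_eq]
      by_cases hki : k = i
      · subst hki
        rw [h5]; simp [hxa, hxb]
      · by_cases hkj : k = j
        · subst hkj
          rw [h6]; simp [hxa, hxb]
        · rw [h7 k hki hkj]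

theorem step_base {α : Type} {M : Matroid α} {n : ℕ} {T T' : Fin n → Set α} (h : Step M T T')
    (hT : ∀ i, M.IsBase (T i)) : ∀ i, M.IsBase (T' i) := by
  obtain ⟨i, j, a, b, hij, h1, h2, h3, h4, h5, h6, h7, h8, h9⟩ := h
  intro k
  by_cases hki : k = i
  · subst hki; exact h8
  · by_cases hkj : k = j
    · subst hkj; exact h9
    · rw [h7 k hki hkj]; exact hT k

/-! ### duality -/

theorem white_dual {α : Type} {M : Matroid α} (h : White M) : White M✶ := by
  intro n B B' hB hB' hcount
  have hsub : ∀ i, B i ⊆ M.E := fun i => (hB i).subset_ground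
  have hsub' : ∀ i, B' i ⊆ M.E := fun i => (hB' i).subset_ground
  have h1 := h n (fun i => M.E \ B i) (fun i => M.E \ B' i)
    (fun i => by have := (hB i).compl_isBase_dual; rwa [dual_dual, dual_ground] at this)
    (fun i => by have := (hB' i).compl_isBase_dual; rwa [dual_dual, dual_ground] at this)
    (by
      intro x
      by_cases hx : x ∈ M.E
      · have e : ∀ T : Fin n → Set α, {i | x ∈ M.E \ T i} = {i | x ∈ T i}ᶜ := by
          intro T; ext i; simp [hx]
        have e1 := Set.ncard_add_ncard_compl {i | x ∈ B i}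
        have e2 := Set.ncard_add_ncard_compl {i | x ∈ B' i}
        rw [e, e]
        have := hcount x
        omega
      · have e : ∀ T : Fin n → Set α, {i | x ∈ M.E \ T i} = ∅ := by
          intro T; ext i; simp [hx]
        rw [e, e])
  have h2 := rlift (p := Step M✶) (fun (T : Fin n → Set α) i => M.E \ T i) ?_ h1
  · have e : ∀ T : Fin n → Set α, (∀ i, T i ⊆ M.E) → (fun i => M.E \ (M.E \ T i)) = T := by
      intro T hT
      funext i
      rw [sdiff_sdiff_cancel_left (hT i)]
    have e1 := e B hsub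
    have e2 := e B' hsub'
    rw [← e1, ← e2]
    exact h2
  · rintro T T' ⟨i, j, a, b, hij, h1, h2, h3, h4, h5, h6, h7, h8, h9⟩
    have hab : a ≠ b := by rintro rfl; exact h4 h1
    have haE : a ∈ M.E := h9.subset_ground (by rw [h6]; exact mem_insert _ _)
    have hbE : b ∈ M.E := h8.subset_ground (by rw [h5]; exact mem_insert _ _)
    refine ⟨i, j, b, a, hij, ⟨hbE, h4⟩, fun h => h.2 h3, ⟨haE, h2⟩, fun h => h.2 h1, ?_, ?_,
      fun k hk1 hk2 => by simp only [h7 k hk1 hk2], h8.compl_isBase_dual, h9.compl_isBase_dual⟩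
    · simp only [h5]
      ext x
      simp only [mem_sdiff, mem_insert_iff, mem_singleton_iff]
      constructor
      · rintro ⟨k1, k2⟩
        by_cases hxa : x = a
        · left; exact hxa
        · right
          refine ⟨⟨k1, fun h => k2 (Or.inr ⟨h, hxa⟩)⟩, fun h => k2 (Or.inl h)⟩
      · rintro (rfl | ⟨⟨k1, k2⟩, k3⟩)
        · exact ⟨haE, fun h => h.elim hab (fun h => h.2 rfl)⟩
        · exact ⟨k1, fun h => h.elim k3 (fun h => k2 h.1)⟩
    · simp only [h6]
      ext x
      simp only [mem_sdiff, mem_insert_iff, mem_singleton_iff]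
      constructor
      · rintro ⟨k1, k2⟩
        by_cases hxb : x = b
        · left; exact hxb
        · right
          refine ⟨⟨k1, fun h => k2 (Or.inr ⟨h, hxb⟩)⟩, fun h => k2 (Or.inl h)⟩
      · rintro (rfl | ⟨⟨k1, k2⟩, k3⟩)
        · exact ⟨hbE, fun h => h.elim hab.symm (fun h => h.2 rfl)⟩
        · exact ⟨k1, fun h => h.elim k3 (fun h => k2 h.1)⟩

/-! ### direct sums -/

def join {α β : Type} {n : ℕ} (L : Fin n → Set α) (R : Fin n → Set β) : Fin n → Set (α ⊕ β) :=
  fun i => Sum.elim (fun x => x ∈ L i) (fun y => y ∈ R i)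

theorem mem_join_inl {α β : Type} {n : ℕ} (L : Fin n → Set α) (R : Fin n → Set β) (i : Fin n)
    (x : α) : Sum.inl x ∈ join L R i ↔ x ∈ L i := Iff.rfl

theorem mem_join_inr {α β : Type} {n : ℕ} (L : Fin n → Set α) (R : Fin n → Set β) (i : Fin n)
    (x : β) : Sum.inr x ∈ join L R i ↔ x ∈ R i := Iff.rfl

theorem white_sum {α β : Type} {M : Matroid α} {N : Matroid β} (hM : White M) (hN : White N) :
    White (M.sum N) := by
  intro n B B' hB hB' hcount
  have hbase : ∀ (L : Fin n → Set α) (R : Fin n → Set β) (i : Fin n), M.IsBase (L i) →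
      N.IsBase (R i) → (M.sum N).IsBase (join L R i) := by
    intro L R i h1 h2
    rw [sum_isBase_iff]
    exact ⟨h1, h2⟩
  have hL := hM n (fun i => Sum.inl ⁻¹' B i) (fun i => Sum.inl ⁻¹' B' i)
    (fun i => (sum_isBase_iff.mp (hB i)).1) (fun i => (sum_isBase_iff.mp (hB' i)).1)
    (fun x => hcount (Sum.inl x))
  have hR := hN n (fun i => Sum.inr ⁻¹' B i) (fun i => Sum.inr ⁻¹' B' i)
    (fun i => (sum_isBase_iff.mp (hB i)).2) (fun i => (sum_isBase_iff.mp (hB' i)).2)
    (fun x => hcount (Sum.inr x))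
  have e : ∀ T : Fin n → Set (α ⊕ β), join (fun i => Sum.inl ⁻¹' T i) (fun i => Sum.inr ⁻¹' T i) = T := by
    intro T
    funext i
    ext x
    rcases x with x | x
    · rfl
    · rfl
  have p1 := rlift (p := Step (M.sum N))
    (fun L => join L (fun i => Sum.inr ⁻¹' B i)) ?_ hL
  have p2 := rlift (p := Step (M.sum N))
    (fun R => join (fun i => Sum.inl ⁻¹' B' i) R) ?_ hR
  · rw [← e B, ← e B']
    exact p1.trans p2
  · rintro T T' ⟨i, j, a, b, hij, h1, h2, h3, h4, h5, h6, h7, h8, h9⟩
    refine ⟨i, j, Sum.inr a, Sum.inr b, hij, h1, h2, h3, h4, ?_, ?_, ?_,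
      hbase _ _ _ (sum_isBase_iff.mp (hB' i)).1 h8, hbase _ _ _ (sum_isBase_iff.mp (hB' j)).1 h9⟩
    · ext x
      rcases x with x | x
      · simp [mem_join_inl]
      · simp [mem_join_inr, h5]
    · ext x
      rcases x with x | x
      · simp [mem_join_inl]
      · simp [mem_join_inr, h6]
    · intro k hk1 hk2
      ext x
      rcases x with x | x
      · simp [mem_join_inl]
      · simp [mem_join_inr, h7 k hk1 hk2]
  · rintro T T' ⟨i, j, a, b, hij, h1, h2, h3, h4, h5, h6, h7, h8, h9⟩
    refine ⟨i, j, Sum.inl a, Sum.inl b, hij, h1, h2, h3, h4, ?_, ?_, ?_,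
      hbase _ _ _ h8 (sum_isBase_iff.mp (hB i)).2, hbase _ _ _ h9 (sum_isBase_iff.mp (hB j)).2⟩
    · ext x
      rcases x with x | x
      · simp [mem_join_inl, h5]
      · simp [mem_join_inr]
    · ext x
      rcases x with x | x
      · simp [mem_join_inl, h6]
      · simp [mem_join_inr]
    · intro k hk1 hk2
      ext x
      rcases x with x | x
      · simp [mem_join_inl, h7 k hk1 hk2]
      · simp [mem_join_inr]

end Pool.Agent.KS6_88.WH
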