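import Pool.Agent.KS6_88.WH.Base

/-! White's conjecture for comaps (parallel extensions and deletions). -/

set_option autoImplicit false

namespace Pool.Agent.KS6_88.WH

open Set Matroid Classical

theorem path_count {α : Type} {M : Matroid α} {n : ℕ} {T T' : Fin n → Set α}
    (h : Relation.ReflTransGen (Step M) T T') (x : α) :
    {k | x ∈ T' k}.ncard = {k | x ∈ T k}.ncard := by
  induction h with
  | refl => rfl
  | tail _ h2 ih => rw [step_count h2, ih]

/-- replacing an element of a base of a comap by a parallel one -/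
theorem swap_base {α β : Type} {M : Matroid β} {f : α → β} {S : Set α} {b c : α}
    (hS : (M.comap f).IsBase S) (hc : c ∈ S) (hb : b ∉ S) (hf : f b = f c) :
    (M.comap f).IsBase (insert b (S \ {c})) ∧ f '' (insert b (S \ {c})) = f '' S := by
  rw [comap_isBase_iff] at hS
  obtain ⟨h1, h2, h3⟩ := hS
  have him : f '' (insert b (S \ {c})) = f '' S := by
    rw [image_insert_eq, hf]
    ext y
    constructor
    · rintro (rfl | ⟨x, hx, rfl⟩)
      · exact ⟨c, hc, rfl⟩
      · exact ⟨x, hx.1, rfl⟩
    · rintro ⟨x, hx, rfl⟩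
      by_cases hxc : x = c
      · subst hxc; exact mem_insert _ _
      · exact mem_insert_of_mem _ ⟨x, ⟨hx, hxc⟩, rfl⟩
  refine ⟨?_, him⟩
  rw [comap_isBase_iff]
  refine ⟨by rw [him]; exact h1, ?_, ?_⟩
  · rw [injOn_insert (fun h => hb h.1)]
    refine ⟨h2.mono sdiff_subset, ?_⟩
    rintro ⟨x, hx, hxb⟩
    exact hx.2 (h2 hx.1 hc (hxb.trans hf))
  · apply insert_subset
    · show f b ∈ M.E
      rw [hf]; exact h3 hc
    · exact sdiff_subset.trans h3

theorem swap_conn {α β : Type} [Finite α] {M : Matroid β} {f : α → β} {n : ℕ} (D : Fin n → Set α)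
    (hD : ∀ i, (M.comap f).IsBase (D i)) (m : ℕ) : ∀ C : Fin n → Set α,
    ∑ i, (C i \ D i).ncard ≤ m → (∀ i, (M.comap f).IsBase (C i)) → (∀ i, f '' C i = f '' D i) →
    (∀ x, {i | x ∈ C i}.ncard = {i | x ∈ D i}.ncard) →
    Relation.ReflTransGen (Step (M.comap f)) C D := by
  have hinj : ∀ {S : Set α}, (M.comap f).IsBase S → InjOn f S := by
    intro S hS
    exact (comap_isBase_iff.mp hS).2.1
  induction m with
  | zero =>
    intro C hC hb him hcount
    have : C = D := by
      funext i
      have h0 : (C i \ D i).ncard = 0 := by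
        have := Finset.single_le_sum (f := fun i => (C i \ D i).ncard)
          (fun k _ => Nat.zero_le _) (Finset.mem_univ i)
        omega
      have h1 : C i \ D i = ∅ := by rwa [Set.ncard_eq_zero (Set.toFinite _)] at h0
      have h2 : C i ⊆ D i := sdiff_eq_empty.mp h1
      apply h2.antisymm
      intro x hx
      have : f x ∈ f '' C i := by rw [him]; exact ⟨x, hx, rfl⟩
      obtain ⟨y, hy, hyx⟩ := this
      have := hinj (hD i) (h2 hy) hx hyx
      rwa [← this]
    rw [this]
  | succ m ih =>
    intro C hC hb him hcount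
    by_cases hCD : ∀ i, C i ⊆ D i
    · apply ih C _ hb him hcount
      have : ∑ i, (C i \ D i).ncard = 0 := by
        apply Finset.sum_eq_zero
        intro i _
        rw [sdiff_eq_empty.mpr (hCD i)]; simp
      omega
    push Not at hCD
    obtain ⟨i, hi⟩ := hCD
    obtain ⟨c, hc, hcD⟩ := not_subset.mp hi
    obtain ⟨b, hbD, hbc⟩ : ∃ b ∈ D i, f b = f c := by
      have : f c ∈ f '' D i := by rw [← him]; exact ⟨c, hc, rfl⟩
      exact this
    have hne : b ≠ c := by rintro rfl; exact hcD hbD
    have hbC : b ∉ C i := fun h => hne (hinj (hb i) h hc hbc)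
    obtain ⟨j, hjC, hjD⟩ : ∃ j, b ∈ C j ∧ b ∉ D j := by
      by_contra hcon
      push Not at hcon
      have h1 : {k | b ∈ C k} ⊆ {k | b ∈ D k} := hcon
      have h2 := Set.eq_of_subset_of_ncard_le h1 (hcount b).ge (Set.toFinite _)
      have : i ∈ {k | b ∈ C k} := by rw [h2]; exact hbD
      exact hbC this
    have hij : i ≠ j := by rintro rfl; exact hbC hjC
    have hcj : c ∉ C j := fun h => hne (hinj (hb j) hjC h hbc)
    set C' : Fin n → Set α := fun k => if k = i then insert b (C i \ {c}) else
      if k = j then insert c (C j \ {b}) else C k with hC'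
    have e1 : C' i = insert b (C i \ {c}) := by simp [hC']
    have e2 : C' j = insert c (C j \ {b}) := by simp [hC', hij.symm]
    have e3 : ∀ k, k ≠ i → k ≠ j → C' k = C k := by
      intro k h1 h2; simp [hC', h1, h2]
    have s1 := swap_base (hb i) hc hbC hbc
    have s2 := swap_base (hb j) hjC hcj hbc.symm
    have st : Step (M.comap f) C C' := by
      refine ⟨i, j, c, b, hij, hc, hcj, hjC, hbC, e1, e2, e3, ?_, ?_⟩
      · rw [e1]; exact s1.1
      · rw [e2]; exact s2.1
    refine Relation.ReflTransGen.head st (ih C' ?_ (step_base st hb) ?_ ?_)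
    · have hlt : ∑ k, (C' k \ D k).ncard < ∑ k, (C k \ D k).ncard := by
        apply Finset.sum_lt_sum
        · intro k _
          by_cases hki : k = i
          · subst hki
            apply Set.ncard_le_ncard _ (Set.toFinite _)
            rw [e1]
            rintro x ⟨h1 | h1, h2⟩
            · exact absurd (h1 ▸ hbD) h2
            · exact ⟨h1.1, h2⟩
          · by_cases hkj : k = j
            · subst hkj
              rw [e2]
              have h1 : insert c (C k \ {b}) \ D k ⊆ insert c ((C k \ D k) \ {b}) := by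
                rintro x ⟨h1 | h1, h2⟩
                · exact Or.inl h1
                · exact Or.inr ⟨⟨h1.1, h2⟩, h1.2⟩
              have h2 := Set.ncard_le_ncard h1 (Set.toFinite _)
              have h3 := Set.ncard_insert_le c ((C k \ D k) \ {b})
              have h4 := Set.ncard_sdiff_singleton_add_one (show b ∈ C k \ D k from ⟨hjC, hjD⟩)
                (Set.toFinite _)
              omega
            · rw [e3 k hki hkj]
        · refine ⟨i, Finset.mem_univ _, ?_⟩
          rw [e1]
          have h1 : insert b (C i \ {c}) \ D i ⊆ (C i \ D i) \ {c} := by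
            rintro x ⟨h1 | h1, h2⟩
            · exact absurd (h1 ▸ hbD) h2
            · exact ⟨⟨h1.1, h2⟩, h1.2⟩
          have h2 := Set.ncard_le_ncard h1 (Set.toFinite _)
          have h4 := Set.ncard_sdiff_singleton_add_one (show c ∈ C i \ D i from ⟨hc, hcD⟩)
            (Set.toFinite _)
          omega
      omega
    · intro k
      by_cases hki : k = i
      · subst hki; rw [e1, s1.2]; exact him k
      · by_cases hkj : k = j
        · subst hkj; rw [e2, s2.2]; exact him k
        · rw [e3 k hki hkj]; exact him k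
    · intro x
      rw [step_count st]; exact hcount x

theorem ncard_filter {n : ℕ} (p : Fin n → Prop) :
    {i | p i}.ncard = (Finset.univ.filter p).card := by
  rw [← Set.ncard_coe_finset]
  congr 1
  ext i
  simp

theorem image_count {α β : Type} [Finite α] {f : α → β} {n : ℕ} {B : Fin n → Set α}
    (hinj : ∀ i, InjOn f (B i)) (y : β) :
    {i | y ∈ f '' B i}.ncard = ∑ x ∈ (Set.toFinite {x | f x = y}).toFinset, {i | x ∈ B i}.ncard := by
  have e : ∀ x, {i | x ∈ B i}.ncard = (Finset.univ.filter (fun i => x ∈ B i)).card :=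
    fun x => ncard_filter _
  simp only [e]
  rw [← Finset.card_biUnion]
  · rw [ncard_filter]
    congr 1
    ext i
    simp only [Finset.mem_filter, Finset.mem_univ, true_and, Finset.mem_biUnion,
      Set.Finite.mem_toFinset, mem_ofPred_eq]
    constructor
    · rintro ⟨x, hx, rfl⟩
      exact ⟨x, rfl, hx⟩
    · rintro ⟨x, rfl, hx⟩
      exact ⟨x, hx, rfl⟩
  · intro x hx x' hx' hne
    rw [Function.onFun, Finset.disjoint_left]
    intro i hi hi'
    simp only [Finset.mem_filter, Finset.mem_univ, true_and] at hi hi'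
    simp only [Finset.mem_coe, Set.Finite.mem_toFinset, mem_ofPred_eq] at hx hx'
    exact hne (hinj i hi hi' (hx.trans hx'.symm))

theorem lift_path {α β : Type} {M : Matroid β} {f : α → β} {n : ℕ} {B : Fin n → Set α} {I : Set β}
    (hB : ∀ i, (M.comap f).IsBase (B i))
    (hconv : ∀ X ⊆ f '' (f ⁻¹' M.E), M.IsBase (X ∪ I) → M.IsBasis X (f '' (f ⁻¹' M.E)))
    {T : Fin n → Set β} (h : Relation.ReflTransGen (Step M) (fun i => f '' B i ∪ I) T) :
    ∃ C : Fin n → Set α, Relation.ReflTransGen (Step (M.comap f)) B C ∧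
      (∀ i, (M.comap f).IsBase (C i)) ∧ ∀ i, T i = f '' C i ∪ I := by
  induction h with
  | refl => exact ⟨B, Relation.ReflTransGen.refl, hB, fun i => rfl⟩
  | @tail T T' _ hst ih =>
    obtain ⟨C, hC1, hC2, hC3⟩ := ih
    obtain ⟨i, j, a, b, hij, h1, h2, h3, h4, h5, h6, h7, h8, h9⟩ := hst
    have hI : ∀ k, I ⊆ T k := fun k => by rw [hC3 k]; exact subset_union_right
    have haI : a ∉ I := fun h => h2 (hI j h)
    have hbI : b ∉ I := fun h => h4 (hI i h)
    obtain ⟨a', ha', rfl⟩ : a ∈ f '' C i := by
      rw [hC3 i] at h1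
      exact h1.resolve_right haI
    obtain ⟨b', hb', rfl⟩ : b ∈ f '' C j := by
      rw [hC3 j] at h3
      exact h3.resolve_right hbI
    have hsub : ∀ k, C k ⊆ f ⁻¹' M.E := fun k => (comap_isBase_iff.mp (hC2 k)).2.2
    have hinj : ∀ k, InjOn f (C k) := fun k => (comap_isBase_iff.mp (hC2 k)).2.1
    have ha'j : a' ∉ C j := fun h => h2 (by rw [hC3 j]; exact Or.inl ⟨a', h, rfl⟩)
    have hb'i : b' ∉ C i := fun h => h4 (by rw [hC3 i]; exact Or.inl ⟨b', h, rfl⟩)
    have key : ∀ (k : Fin n) (p q : α), p ∈ C k → f q ∉ T k → f p ∉ I → f q ∈ M.E →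
        T' k = insert (f q) (T k \ {f p}) → M.IsBase (T' k) →
        T' k = f '' (insert q (C k \ {p})) ∪ I ∧ (M.comap f).IsBase (insert q (C k \ {p})) := by
      intro k p q hp hq hpI hqE hT hTb
      have hq' : f q ∉ f '' C k := fun h => hq (by rw [hC3 k]; exact Or.inl h)
      have e : T' k = f '' (insert q (C k \ {p})) ∪ I := by
        rw [hT, hC3 k, image_insert_eq]
        ext x
        simp only [mem_insert_iff, mem_sdiff, mem_union, mem_singleton_iff, mem_image]
        constructor
        · rintro (h | ⟨⟨z, hz, rfl⟩ | h, h'⟩)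
          · exact Or.inl (Or.inl h)
          · exact Or.inl (Or.inr ⟨z, ⟨hz, fun h => h' (by rw [h])⟩, rfl⟩)
          · exact Or.inr h
        · rintro ((h | ⟨z, ⟨hz, hz'⟩, rfl⟩) | h)
          · exact Or.inl h
          · exact Or.inr ⟨Or.inl ⟨z, hz, rfl⟩, fun h => hz' (hinj k hz hp h)⟩
          · exact Or.inr ⟨Or.inr h, fun h' => hpI (h' ▸ h)⟩
      refine ⟨e, ?_⟩
      have hs : insert q (C k \ {p}) ⊆ f ⁻¹' M.E :=
        insert_subset hqE (sdiff_subset.trans (hsub k))
      rw [comap_isBase_iff]
      refine ⟨hconv _ (image_mono hs) (by rw [← e]; exact hTb), ?_, hs⟩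
      rw [injOn_insert (fun h => hq' ⟨q, h.1, rfl⟩)]
      refine ⟨(hinj k).mono sdiff_subset, ?_⟩
      rintro ⟨z, hz, hzq⟩
      exact hq' ⟨z, hz.1, hzq⟩
    have k1 := key i a' b' ha' h4 haI (hsub j hb') h5 h8
    have k2 := key j b' a' hb' h2 hbI (hsub i ha') h6 h9
    set C' : Fin n → Set α := fun k => if k = i then insert b' (C i \ {a'}) else
      if k = j then insert a' (C j \ {b'}) else C k with hC'
    have e1 : C' i = insert b' (C i \ {a'}) := by simp [hC']
    have e2 : C' j = insert a' (C j \ {b'}) := by simp [hC', hij.symm]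
    have e3 : ∀ k, k ≠ i → k ≠ j → C' k = C k := by
      intro k h1 h2; simp [hC', h1, h2]
    have st : Step (M.comap f) C C' := by
      refine ⟨i, j, a', b', hij, ha', ha'j, hb', hb'i, e1, e2, e3, ?_, ?_⟩
      · rw [e1]; exact k1.2
      · rw [e2]; exact k2.2
    refine ⟨C', hC1.tail st, step_base st hC2, ?_⟩
    intro k
    by_cases hki : k = i
    · subst hki; rw [e1]; exact k1.1
    · by_cases hkj : k = j
      · subst hkj; rw [e2]; exact k2.1
      · rw [e3 k hki hkj, h7 k hki hkj]; exact hC3 k

theorem white_comap {α β : Type} [Finite α] [Finite β] {M : Matroid β} (hM : White M)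
    (f : α → β) : White (M.comap f) := by
  set Y : Set β := f '' (f ⁻¹' M.E) with hY
  have hYE : Y ⊆ M.E := image_preimage_subset f M.E
  obtain ⟨X0, hX0⟩ := M.exists_isBasis Y
  obtain ⟨B0, hB0, hXB⟩ := hX0.indep.exists_isBase_superset
  set I := B0 \ X0 with hI
  have hIY : Disjoint I Y := by
    rw [Set.disjoint_left]
    rintro x ⟨h1, h2⟩ h3
    exact h2 (hX0.mem_of_insert_indep h3 (hB0.indep.subset (insert_subset h1 hXB)))
  have hB0e : X0 ∪ I = B0 := union_sdiff_cancel hXB
  have hgood : ∀ X, M.IsBasis X Y → M.IsBase (X ∪ I) := by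
    intro X hX
    have hcl : M.closure (X ∪ I) = M.closure (X0 ∪ I) :=
      closure_union_congr_left (hX.closure_eq_closure.trans hX0.closure_eq_closure.symm)
    rw [hB0e, hB0.closure_eq] at hcl
    have hXI : X ∪ I ⊆ M.E := union_subset (hX.subset.trans hYE) (sdiff_subset.trans hB0.subset_ground)
    have hsp : M.Spanning (X ∪ I) := by rw [spanning_iff_closure_eq hXI]; exact hcl
    obtain ⟨B, hB, hBX⟩ := hsp.exists_isBase_subset
    have h1 : B.ncard = B0.ncard := hB.ncard_eq_ncard_of_isBase hB0
    have h2 : X.ncard = X0.ncard := by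
      have := hX.encard_eq_encard hX0
      unfold Set.ncard
      rw [this]
    have h3 : B0.ncard = X0.ncard + I.ncard := by
      rw [← hB0e]
      exact Set.ncard_union_eq disjoint_sdiff_self_right (Set.toFinite _) (Set.toFinite _)
    have h4 := Set.ncard_union_le X I
    have h5 := Set.eq_of_subset_of_ncard_le hBX (by omega) (Set.toFinite _)
    rwa [h5] at hB
  have hconv : ∀ X ⊆ Y, M.IsBase (X ∪ I) → M.IsBasis X Y := by
    intro X hX hXb
    obtain ⟨X1, hX1, hXX1⟩ := (hXb.indep.subset subset_union_left).subset_isBasis_of_subset hX hYE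
    have h1 := hXb.eq_of_subset_isBase (hgood X1 hX1) (union_subset_union_left I hXX1)
    have h2 : X1 ⊆ X := by
      intro x hx
      have : x ∈ X ∪ I := by rw [h1]; exact Or.inl hx
      exact this.resolve_right (fun h => Set.disjoint_left.mp hIY h (hX1.subset hx))
    rwa [hXX1.antisymm h2]
  intro n B B' hB hB' hcount
  have hb : ∀ {S : Set α}, (M.comap f).IsBase S → M.IsBase (f '' S ∪ I) := by
    intro S hS
    exact hgood _ (comap_isBase_iff.mp hS).1
  have hinj : ∀ {S : Set α}, (M.comap f).IsBase S → InjOn f S := by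
    intro S hS
    exact (comap_isBase_iff.mp hS).2.1
  have h1 := hM n (fun i => f '' B i ∪ I) (fun i => f '' B' i ∪ I) (fun i => hb (hB i))
    (fun i => hb (hB' i)) (by
      intro y
      by_cases hy : y ∈ I
      · have e : ∀ T : Fin n → Set α, {i | y ∈ f '' T i ∪ I} = univ := by
          intro T; ext i; simp [hy]
        rw [e, e]
      · have e : ∀ T : Fin n → Set α, {i | y ∈ f '' T i ∪ I} = {i | y ∈ f '' T i} := by
          intro T; ext i; simp [hy]
        rw [e, e, image_count (fun i => hinj (hB i)), image_count (fun i => hinj (hB' i))]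
        exact Finset.sum_congr rfl fun x _ => hcount x)
  obtain ⟨C, hC1, hC2, hC3⟩ := lift_path hB hconv h1
  refine hC1.trans (swap_conn B' hB' _ C le_rfl hC2 ?_ ?_)
  · intro i
    have h2 := hC3 i
    have hs : ∀ {S : Set α}, (M.comap f).IsBase S → f '' S ⊆ Y := by
      intro S hS
      exact image_mono (comap_isBase_iff.mp hS).2.2
    apply Set.Subset.antisymm
    · intro y hy
      have : y ∈ f '' B' i ∪ I := by rw [h2]; exact Or.inl hy
      exact this.resolve_right (fun h => Set.disjoint_left.mp hIY h (hs (hC2 i) hy))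
    · intro y hy
      have : y ∈ f '' C i ∪ I := by rw [← h2]; exact Or.inl hy
      exact this.resolve_right (fun h => Set.disjoint_left.mp hIY h (hs (hB' i) hy))
  · intro x
    rw [path_count hC1]
    exact hcount x

end Pool.Agent.KS6_88.WH
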