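import Pool.Agent.KS6_88.WH.Comap

/-! Elementary split matroids satisfy White's conjecture: the earlier run's theorem, in terms of
tuples of sets. -/

set_option autoImplicit false

namespace Pool.Agent.KS6_88.WH

/-- the theorem of the library (module S08327), with its proof -/
theorem frozen_form :
    ∀ (α : Type) [Fintype α] [DecidableEq α] (M : Matroid α),
      (∀ (B0 S : Set α), M.IsBase B0 → S ⊆ M.E → S.ncard = B0.ncard →
        (M.IsBase S ∨
          ∃ (A I : Set α), A ⊆ M.E ∧
            (∀ X Y : Set α, (M.restrict A).IsBase X → Y ⊆ (M.restrict A).E →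
              Y.ncard = X.ncard → (M.restrict A).IsBase Y) ∧
            (∀ X Y : Set α, (M.contract A).IsBase X → Y ⊆ (M.contract A).E →
              Y.ncard = X.ncard → (M.contract A).IsBase Y) ∧
            M.IsBasis I A ∧ I.ncard < (S ∩ A).ncard)) →
      ∀ (n : ℕ) (B B' : Fin n → Finset α),
        (∀ i, M.IsBase (↑(B i) : Set α)) →
        (∀ i, M.IsBase (↑(B' i) : Set α)) →
        (Finset.univ.sum (fun i => (B i).val)) = (Finset.univ.sum (fun i => (B' i).val)) →
        Relation.ReflTransGen
          (fun T T' : Fin n → Finset α =>
            ∃ (i j : Fin n) (a b : α), i ≠ j ∧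
              a ∈ T i ∧ a ∉ T j ∧ b ∈ T j ∧ b ∉ T i ∧
              M.IsBase (↑(insert b ((T i).erase a)) : Set α) ∧
              M.IsBase (↑(insert a ((T j).erase b)) : Set α) ∧
              T' = Function.update (Function.update T i (insert b ((T i).erase a))) j
                (insert a ((T j).erase b)))
          B B' := by
  intro α _ _ M hM n B B' hB hB' hsum
  rcases n with _ | n
  · have : B = B' := by
      funext i
      exact i.elim0
    rw [this]
  · have h := Pool.Agent.H315R3.White.tuple_conn (M := Pool.Agent.H315R3.White.sys M)
      (ι := Fin (n + 1)) _ Finset.univ rfl _ 0 (Finset.mem_univ _) B B'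
      (fun i => Pool.Agent.H315R3.White.good_of_base (hB i))
      (fun i => Pool.Agent.H315R3.White.good_of_base (hB' i))
      (fun k hk => absurd (Finset.mem_univ k) hk)
      (by
        intro x
        have h1 := congrArg (Multiset.count x) hsum
        rw [Multiset.count_sum', Multiset.count_sum'] at h1
        have e : ∀ T : Fin (n + 1) → Finset α, Pool.Agent.H315R3.White.cnt T x
            = ∑ i, Multiset.count x (T i).val := by
          intro T
          unfold Pool.Agent.H315R3.White.cnt
          apply Finset.sum_congr rfl
          intro i _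
          rw [Multiset.count_eq_of_nodup (T i).nodup]
          rfl
        rw [e, e]
        exact h1)
      rfl
    have h2 : ∀ T, Pool.Agent.H315R3.White.Reach (Pool.Agent.H315R3.White.sys M)
        (Finset.univ : Finset (Fin (n + 1))) B T → Relation.ReflTransGen
          (fun T T' : Fin (n + 1) → Finset α =>
            ∃ (i j : Fin (n + 1)) (a b : α), i ≠ j ∧
              a ∈ T i ∧ a ∉ T j ∧ b ∈ T j ∧ b ∉ T i ∧
              M.IsBase (↑(insert b ((T i).erase a)) : Set α) ∧
              M.IsBase (↑(insert a ((T j).erase b)) : Set α) ∧
              T' = Function.update (Function.update T i (insert b ((T i).erase a))) j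
                (insert a ((T j).erase b))) B T := by
      intro T hT
      induction hT with
      | refl => exact Relation.ReflTransGen.refl
      | tail _ st ih =>
        obtain ⟨i, j, x, y, _, _, hij, k1, k2, k3, k4, g1, g2, k5⟩ := st
        exact Relation.ReflTransGen.tail ih ⟨i, j, x, y, hij, k1, k2, k3, k4,
          Pool.Agent.H315R3.White.base_of_good hM g1,
          Pool.Agent.H315R3.White.base_of_good hM g2, k5⟩
    exact h2 _ h


open Set Matroid Classical in
theorem white_split {α : Type} [Finite α] (M : Matroid α)
    (hM : ∀ (B0 S : Set α), M.IsBase B0 → S ⊆ M.E → S.ncard = B0.ncard →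
        (M.IsBase S ∨
          ∃ (A I : Set α), A ⊆ M.E ∧
            (∀ X Y : Set α, (M.restrict A).IsBase X → Y ⊆ (M.restrict A).E →
              Y.ncard = X.ncard → (M.restrict A).IsBase Y) ∧
            (∀ X Y : Set α, (M.contract A).IsBase X → Y ⊆ (M.contract A).E →
              Y.ncard = X.ncard → (M.contract A).IsBase Y) ∧
            M.IsBasis I A ∧ I.ncard < (S ∩ A).ncard)) : White M := by
  intro n B B' hB hB' hcount
  let _ : Fintype α := Fintype.ofFinite α
  set F : (Fin n → Set α) → (Fin n → Finset α) := fun T i => (Set.toFinite (T i)).toFinset with hF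
  have hFc : ∀ T i, ((F T i : Finset α) : Set α) = T i :=
    fun T i => Set.Finite.coe_toFinset _
  have hcnt : ∀ (T : Fin n → Set α) (x : α),
      Multiset.count x (Finset.univ.sum (fun i => (F T i).val)) = {i | x ∈ T i}.ncard := by
    intro T x
    rw [Multiset.count_sum', ncard_filter, Finset.card_filter]
    apply Finset.sum_congr rfl
    intro i _
    rw [Multiset.count_eq_of_nodup (F T i).nodup]
    have : x ∈ (F T i).val ↔ x ∈ T i := by
      rw [Finset.mem_val, ← Finset.mem_coe, hFc]
    simp only [this]
  have h := frozen_form α M hM n (F B) (F B') (fun i => by rw [hFc]; exact hB i)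
    (fun i => by rw [hFc]; exact hB' i) (by
      ext x
      rw [hcnt, hcnt]
      exact hcount x)
  have h2 := rlift (p := Step M) (fun (T : Fin n → Finset α) i => ((T i : Finset α) : Set α)) ?_ h
  · have e : ∀ T : Fin n → Set α, (fun i => ((F T i : Finset α) : Set α)) = T := by
      intro T; funext i; exact hFc T i
    rw [e B, e B'] at h2
    exact h2
  · rintro T T' ⟨i, j, a, b, hij, h1, h2, h3, h4, h5, h6, h7⟩
    have e1 : T' i = insert b ((T i).erase a) := by
      rw [h7, Function.update_of_ne hij, Function.update_self]
    have e2 : T' j = insert a ((T j).erase b) := by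
      rw [h7, Function.update_self]
    refine ⟨i, j, a, b, hij, by exact_mod_cast h1, by exact_mod_cast h2, by exact_mod_cast h3,
      by exact_mod_cast h4, ?_, ?_, ?_, ?_, ?_⟩
    · simp only [e1]
      ext x
      simp [and_comm]
    · simp only [e2]
      ext x
      simp [and_comm]
    · intro k hki hkj
      simp only [h7]
      rw [Function.update_of_ne hkj, Function.update_of_ne hki]
    · simp only [e1]; exact h5
    · simp only [e2]; exact h6

end Pool.Agent.KS6_88.WH
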